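import Mathlib

/-!
Engel maps, the semidirect product of a module with a group, and the derivative of the
iterated commutator with respect to a pair of module elements.
-/

set_option autoImplicit false

namespace Pool.Agent.Lib.MP_954a1f_al

open Function

/-- The Engel map `z ↦ [z, y] = z⁻¹ y⁻¹ z y`. -/
def eng {G : Type*} [Group G] (y : G) : G → G := fun z => z⁻¹ * y⁻¹ * z * y

theorem map_eng_iterate {G H : Type*} [Group G] [Group H] (f : G →* H) (x y : G) (a : ℕ) :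
    f ((eng y)^[a] x) = (eng (f y))^[a] (f x) := by
  have h : Semiconj f (eng y) (eng (f y)) := by
    intro z
    simp [eng]
  exact (h.iterate_right a) x

section SD

variable {F : Type*} [Field F] {G : Type*} [Group G] {V : Type*} [AddCommGroup V] [Module F V]

/-- The semidirect product `V ⋊ G` for a linear representation. -/
@[ext]
structure SD (ρ : Representation F G V) where
  v : V
  g : G

variable {ρ : Representation F G V}

instance : Mul (SD ρ) := ⟨fun p q => ⟨p.v + ρ p.g q.v, p.g * q.g⟩⟩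
instance : One (SD ρ) := ⟨⟨0, 1⟩⟩
instance : Inv (SD ρ) := ⟨fun p => ⟨-(ρ p.g⁻¹ p.v), p.g⁻¹⟩⟩

@[simp] theorem SD.mul_v (p q : SD ρ) : (p * q).v = p.v + ρ p.g q.v := rfl
@[simp] theorem SD.mul_g (p q : SD ρ) : (p * q).g = p.g * q.g := rfl
@[simp] theorem SD.one_v : (1 : SD ρ).v = 0 := rfl
@[simp] theorem SD.one_g : (1 : SD ρ).g = 1 := rfl
@[simp] theorem SD.inv_v (p : SD ρ) : (p⁻¹).v = -(ρ p.g⁻¹ p.v) := rfl
@[simp] theorem SD.inv_g (p : SD ρ) : (p⁻¹).g = p.g⁻¹ := rfl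

instance : Group (SD ρ) :=
  Group.ofLeftAxioms
    (fun p q r => by
      ext
      · simp [add_assoc]
      · simp [mul_assoc])
    (fun p => by
      ext
      · simp
      · simp)
    (fun p => by
      ext
      · simp
      · simp)

/-- The projection `V ⋊ G → G`. -/
def SD.proj (ρ : Representation F G V) : SD ρ →* G where
  toFun p := p.g
  map_one' := rfl
  map_mul' _ _ := rfl

/-- The module component of the iterated commutator `[(m,x), (n,y), ..., (n,y)]`, as a linear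
function of `(m, n)`. -/
def der (ρ : Representation F G V) (x y : G) : ℕ → (V × V →ₗ[F] V)
  | 0 => LinearMap.fst F V V
  | i + 1 =>
    (ρ (((eng y)^[i] x)⁻¹ * y⁻¹) - ρ (((eng y)^[i] x)⁻¹)) ∘ₗ der ρ x y i +
      (ρ (((eng y)^[i] x)⁻¹ * y⁻¹ * ((eng y)^[i] x)) - ρ (((eng y)^[i] x)⁻¹ * y⁻¹)) ∘ₗ
        LinearMap.snd F V V

theorem der_zero (x y : G) (m n : V) : der ρ x y 0 (m, n) = m := rfl

theorem der_succ (x y : G) (i : ℕ) (m n : V) :
    der ρ x y (i + 1) (m, n) =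
      (ρ (((eng y)^[i] x)⁻¹ * y⁻¹) (der ρ x y i (m, n)) -
        ρ (((eng y)^[i] x)⁻¹) (der ρ x y i (m, n))) +
      (ρ (((eng y)^[i] x)⁻¹ * y⁻¹ * ((eng y)^[i] x)) n - ρ (((eng y)^[i] x)⁻¹ * y⁻¹) n) := rfl

theorem eng_SD (y z : G) (n m : V) :
    eng (⟨n, y⟩ : SD ρ) ⟨m, z⟩ =
      ⟨(ρ (z⁻¹ * y⁻¹) m - ρ z⁻¹ m) + (ρ (z⁻¹ * y⁻¹ * z) n - ρ (z⁻¹ * y⁻¹) n), eng y z⟩ := by
  ext
  · simp only [eng, SD.mul_v, SD.inv_v, SD.mul_g, SD.inv_g, map_mul, map_neg,
      Module.End.mul_apply]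
    abel
  · simp [eng]

theorem eng_iterate_SD (x y : G) (m n : V) (i : ℕ) :
    (eng (⟨n, y⟩ : SD ρ))^[i] ⟨m, x⟩ = ⟨der ρ x y i (m, n), (eng y)^[i] x⟩ := by
  induction i with
  | zero => rfl
  | succ i ih => rw [iterate_succ_apply', ih, eng_SD, der_succ, iterate_succ_apply']

/-- Naturality of `der` along an equivariant linear map. -/
theorem der_natural {H : Type*} [Group H] {W : Type*} [AddCommGroup W] [Module F W]
    (ρ' : Representation F H W) (π : G →* H) (φ : W →ₗ[F] V)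
    (hφ : ∀ g w, φ (ρ' (π g) w) = ρ g (φ w)) (x y : G) (m n : W) (i : ℕ) :
    der ρ x y i (φ m, φ n) = φ (der ρ' (π x) (π y) i (m, n)) := by
  induction i with
  | zero => rfl
  | succ i ih =>
    rw [der_succ, der_succ, ih, ← map_eng_iterate π]
    simp only [map_add, map_sub, ← hφ]
    simp only [map_mul π, map_inv π]

theorem der_mem (U : Submodule F V) (hU : ∀ g, ∀ v ∈ U, ρ g v ∈ U) (x y : G) {m n : V}
    (hm : m ∈ U) (hn : n ∈ U) (i : ℕ) : der ρ x y i (m, n) ∈ U := by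
  induction i with
  | zero => exact hm
  | succ i ih =>
    rw [der_succ]
    exact U.add_mem (U.sub_mem (hU _ _ ih) (hU _ _ ih)) (U.sub_mem (hU _ _ hn) (hU _ _ hn))

/-- If `U` is a finite invariant submodule on which `y` has no nonzero fixed vector and `x` is a
periodic point of the Engel map of `y`, then all lifts of `x` are periodic, with one common period,
for the Engel maps of all lifts of `y`. -/
theorem exists_period (U : Submodule F V) [Finite U] [Finite G] (hU : ∀ g, ∀ v ∈ U, ρ g v ∈ U)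
    (x y : G) (hy : ∀ v ∈ U, ρ y⁻¹ v = v → v = 0) (hx : x ∈ periodicPts (eng y)) :
    ∃ a : ℕ, 1 ≤ a ∧ (eng y)^[a] x = x ∧ ∀ m ∈ U, ∀ n ∈ U, der ρ x y a (m, n) = m := by
  classical
  let S := U × periodicPts (eng y)
  let T : U → S → S := fun n p =>
    (⟨(ρ (p.2.1⁻¹ * y⁻¹) p.1 - ρ p.2.1⁻¹ p.1) + (ρ (p.2.1⁻¹ * y⁻¹ * p.2.1) n - ρ (p.2.1⁻¹ * y⁻¹) n),
      U.add_mem (U.sub_mem (hU _ _ p.1.2) (hU _ _ p.1.2))
        (U.sub_mem (hU _ _ n.2) (hU _ _ n.2))⟩,
     ⟨eng y p.2.1, (bijOn_periodicPts (eng y)).mapsTo p.2.2⟩)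
  have hinj : ∀ n, Injective (T n) := by
    rintro n ⟨m1, z1⟩ ⟨m2, z2⟩ h
    have h2 : eng y z1.1 = eng y z2.1 := congrArg (fun p : S => p.2.1) h
    have hz : z1 = z2 := Subtype.ext ((bijOn_periodicPts (eng y)).injOn z1.2 z2.2 h2)
    subst hz
    have h1 : (ρ (z1.1⁻¹ * y⁻¹) m1 - ρ z1.1⁻¹ m1) +
        (ρ (z1.1⁻¹ * y⁻¹ * z1.1) n - ρ (z1.1⁻¹ * y⁻¹) n) =
        (ρ (z1.1⁻¹ * y⁻¹) m2 - ρ z1.1⁻¹ m2) +
        (ρ (z1.1⁻¹ * y⁻¹ * z1.1) n - ρ (z1.1⁻¹ * y⁻¹) n) := congrArg (fun p : S => p.1.1) h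
    have h3 := add_right_cancel h1
    have h4 : ρ z1.1⁻¹ (ρ y⁻¹ (m1.1 - m2.1) - (m1.1 - m2.1)) = 0 := by
      simp only [map_mul, Module.End.mul_apply] at h3
      simp only [map_sub]
      rw [sub_sub_sub_comm, h3, sub_self]
    have h5 : ρ y⁻¹ (m1.1 - m2.1) - (m1.1 - m2.1) = 0 := by
      have := congrArg (ρ z1.1) h4
      rwa [← Module.End.mul_apply, ← map_mul, mul_inv_cancel, map_one, Module.End.one_apply,
        map_zero] at this
    have h6 := hy _ (U.sub_mem m1.2 m2.2) (sub_eq_zero.mp h5)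
    have h7 : m1 = m2 := Subtype.ext (sub_eq_zero.mp h6)
    rw [h7]
  have : Fintype S := Fintype.ofFinite S
  let emb : S → SD ρ := fun p => ⟨p.1.1, p.2.1⟩
  have hsemi : ∀ n : U, Semiconj emb (T n) (eng (⟨n.1, y⟩ : SD ρ)) := by
    rintro n ⟨m, z⟩
    simp only [emb, T]
    rw [eng_SD]
  have key : ∀ m ∈ U, ∀ n ∈ U, (eng (⟨n, y⟩ : SD ρ))^[(Fintype.card S).factorial] ⟨m, x⟩ = ⟨m, x⟩ := by
    intro m hm n hn
    have h1 := isPeriodicPt_factorial_card_of_mem_periodicPts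
      ((hinj ⟨n, hn⟩).mem_periodicPts (⟨m, hm⟩, ⟨x, hx⟩))
    exact h1.map (hsemi ⟨n, hn⟩)
  refine ⟨(Fintype.card S).factorial, Nat.factorial_pos _, ?_, ?_⟩
  · have := key 0 U.zero_mem 0 U.zero_mem
    rw [eng_iterate_SD] at this
    exact congrArg SD.g this
  · intro m hm n hn
    have := key m hm n hn
    rw [eng_iterate_SD] at this
    exact congrArg SD.v this

end SD

end Pool.Agent.Lib.MP_954a1f_al
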