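import Pool.Agent.Lib.MP_954a1f_al.Filtration

/-!
The Golod and Shafarevich type count for a group with two generators and two Engel relations that
acts on nine points.
-/

set_option autoImplicit false

namespace Pool.Agent.Lib.MP_954a1f_al

open Function Module

section Count

variable {F : Type*} [Field F] {G : Type*} [Group G] {Ω : Type*}
variable {π : G →* Equiv.Perm Ω} {ω₀ : Ω}

/-- Functions of degree `< n + 1` fixed by `y` modulo functions of degree `< n`. -/
def fixMod (F : Type*) [Field F] (π : G →* Equiv.Perm Ω) (ω₀ : Ω) (y : G) (n : ℕ) :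
    Submodule F (G → F) :=
  filt F π ω₀ (n + 1) ⊓ (filt F π ω₀ n).comap (reg F G y - LinearMap.id)

theorem mem_fixMod {y : G} {n : ℕ} {f : G → F} :
    f ∈ fixMod F π ω₀ y n ↔ f ∈ filt F π ω₀ (n + 1) ∧ reg F G y f - f ∈ filt F π ω₀ n := Iff.rfl

theorem filt_le_fixMod (y : G) (n : ℕ) : filt F π ω₀ n ≤ fixMod F π ω₀ y n := fun _ hf =>
  mem_fixMod.mpr ⟨filt_mono n hf, Submodule.sub_mem _ (reg_mem y hf) hf⟩

theorem count_fix [Finite G] [Fintype Ω] [DecidableEq Ω] (y : G)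
    (htr : ∀ ω ω' : Ω, ∃ i : ℕ, π (y ^ i) ω = ω') (n : ℕ) :
    Fintype.card Ω * finrank F (fixMod F π ω₀ y n) + finrank F (filt F π ω₀ n) ≤
      Fintype.card Ω * finrank F (filt F π ω₀ n) + finrank F (filt F π ω₀ (n + 1)) := by
  let Ψ : (Ω → fixMod F π ω₀ y n) →ₗ[F] (G → F) :=
    ∑ ω, ind F π ω₀ ω ∘ₗ (fixMod F π ω₀ y n).subtype ∘ₗ LinearMap.proj ω
  have hΨ : ∀ a, Ψ a = ∑ ω, ind F π ω₀ ω (a ω).1 := by
    intro a
    simp [Ψ, LinearMap.sum_apply]
  have h1 := finrank_comap_ge Ψ (filt F π ω₀ n) (filt F π ω₀ (n + 1)) (filt_mono n) (by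
    intro a
    rw [hΨ]
    exact Submodule.sum_mem _ fun ω _ => ind_mem ω (mem_fixMod.mp (a ω).2).1)
  have h2 : ∀ a ∈ (filt F π ω₀ n).comap Ψ, ∀ ω, (a ω).1 ∈ filt F π ω₀ n := by
    intro a ha ω
    rw [Submodule.mem_comap, hΨ] at ha
    have h3 := ind_mem ω ha
    rw [ind_sum_ind] at h3
    refine mem_of_ind_mem ω (fun ω' => ?_) h3
    obtain ⟨i, hi⟩ := htr ω ω'
    exact ⟨y ^ i, Subgroup.pow_mem _ (mem_stabMod.mpr (mem_fixMod.mp (a ω).2).2) i, hi⟩
  let j : (filt F π ω₀ n).comap Ψ →ₗ[F] (Ω → filt F π ω₀ n) :=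
    LinearMap.pi fun ω => LinearMap.codRestrict (filt F π ω₀ n)
      ((fixMod F π ω₀ y n).subtype ∘ₗ
        (LinearMap.proj ω : (Ω → fixMod F π ω₀ y n) →ₗ[F] fixMod F π ω₀ y n) ∘ₗ
        ((filt F π ω₀ n).comap Ψ).subtype)
      (fun a => h2 a.1 a.2 ω)
  have hj : Injective j := by
    intro a b hab
    ext ω t
    have := congrArg (fun c : Ω → filt F π ω₀ n => (c ω).1 t) hab
    exact this
  have h4 := LinearMap.finrank_le_finrank_of_injective hj
  rw [Module.finrank_pi_fintype] at h1 h4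
  simp only [Finset.sum_const, Finset.card_univ, smul_eq_mul] at h1 h4
  omega

/-- The norm operator `1 + y + ... + y ^ (q - 1)`. -/
noncomputable def nrm (F : Type*) [Field F] {G : Type*} [Group G] (y : G) (q : ℕ) :
    (G → F) →ₗ[F] (G → F) :=
  ∑ i ∈ Finset.range q, reg F G (y ^ i)

theorem nrm_apply (y : G) (q : ℕ) (f : G → F) :
    nrm F y q f = ∑ i ∈ Finset.range q, reg F G (y ^ i) f := by
  simp [nrm, LinearMap.sum_apply]

theorem dif_nrm (h y : G) (q : ℕ) (f : G → F) :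
    dif F h (nrm F y q f) = nrm F y q (dif F h f) := by
  simp only [nrm_apply, map_sum, dif_reg]

theorem nrm_mem_fixMod {y : G} {q : ℕ} (hq : π (y ^ q) = 1) {n : ℕ} {f : G → F}
    (hf : f ∈ filt F π ω₀ (n + 1)) : nrm F y q f ∈ fixMod F π ω₀ y n := by
  refine mem_fixMod.mpr ⟨map_mem_filt _ (fun h f _ => dif_nrm h y q f) _ _ hf, ?_⟩
  have : reg F G y (nrm F y q f) - nrm F y q f = reg F G (y ^ q) f - f := by
    rw [nrm_apply, map_sum, ← Finset.sum_sub_distrib]
    have h1 := Finset.sum_range_sub (fun i => reg F G (y ^ i) f) q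
    simp only [pow_zero, map_one, Module.End.one_apply] at h1
    rw [← h1]
    refine Finset.sum_congr rfl fun i _ => ?_
    rw [pow_succ', map_mul, Module.End.mul_apply]
  rw [this]
  exact reg_sub_mem_of_ker hq n f hf

/-- Pull-back of functions on `Ω` to functions on `G`. -/
def pull (F : Type*) [Field F] (π : G →* Equiv.Perm Ω) (ω₀ : Ω) : (Ω → F) →ₗ[F] (G → F) :=
  LinearMap.funLeft F F (fun t => π t ω₀)

theorem pull_apply (m : Ω → F) (t : G) : pull F π ω₀ m t = m (π t ω₀) := rfl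

theorem pull_pr (g : G) (m : Ω → F) :
    pull F π ω₀ (pr F (MonoidHom.id (Equiv.Perm Ω)) (π g) m) = reg F G g (pull F π ω₀ m) := by
  ext t
  simp [pull_apply, pr_apply, reg_apply]

theorem exists_pull (htr : ∀ ω, ∃ g, π g ω₀ = ω) {f : G → F} (hf : f ∈ filt F π ω₀ 1) :
    ∃ m, pull F π ω₀ m = f := by
  choose s hs using htr
  refine ⟨fun ω => f (s ω), ?_⟩
  ext t
  rw [pull_apply]
  have h1 := mem_filt_succ.mp hf ((s (π t ω₀))⁻¹ * t) (by
    rw [map_mul, map_inv, Equiv.Perm.mul_apply, Equiv.Perm.inv_eq_iff_eq, hs])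
  rw [mem_filt_zero] at h1
  have h2 := congrFun h1 (s (π t ω₀))
  rw [dif_apply, mul_inv_cancel_left] at h2
  exact (sub_eq_zero.mp h2).symm

theorem sum_eq_zero_of_nrm [Fintype Ω] {y : G} {q : ℕ}
    (hbij : Bijective (fun i : Fin q => (π (y ^ (i : ℕ)))⁻¹ ω₀)) {m : Ω → F}
    (hm : nrm F y q (pull F π ω₀ m) = 0) : ∑ ω, m ω = 0 := by
  have h1 := congrFun hm 1
  rw [nrm_apply, Finset.sum_apply, ← Fin.sum_univ_eq_sum_range
    (fun i => reg F G (y ^ i) (pull F π ω₀ m) 1) q] at h1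
  rw [← hbij.sum_comp m]
  simp only [reg_apply, pull_apply, mul_one, map_inv] at h1
  exact h1

/-- The Engel relation holds one step deeper in the filtration for pairs of norm zero. -/
theorem der_sub_mem [Fintype Ω] {y : G} {q : ℕ} (htr : ∀ ω, ∃ g, π g ω₀ = ω)
    (hbij : Bijective (fun i : Fin q => (π (y ^ (i : ℕ)))⁻¹ ω₀)) (x' y' : G) (a : ℕ)
    (hbase : ∀ m n : Ω → F, ∑ ω, m ω = 0 → ∑ ω, n ω = 0 →
      der (pr F (MonoidHom.id (Equiv.Perm Ω))) (π x') (π y') a (m, n) = m) :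
    ∀ (k : ℕ) (m n : G → F), m ∈ filt F π ω₀ (k + 1) → n ∈ filt F π ω₀ (k + 1) →
      nrm F y q m ∈ filt F π ω₀ k → nrm F y q n ∈ filt F π ω₀ k →
      der (reg F G) x' y' a (m, n) - m ∈ filt F π ω₀ k := by
  intro k
  induction k with
  | zero =>
    intro m n hm hn hm' hn'
    obtain ⟨m0, rfl⟩ := exists_pull htr hm
    obtain ⟨n0, rfl⟩ := exists_pull htr hn
    rw [mem_filt_zero] at hm' hn' ⊢
    rw [der_natural (pr F (MonoidHom.id (Equiv.Perm Ω))) π (pull F π ω₀) pull_pr,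
      hbase m0 n0 (sum_eq_zero_of_nrm hbij hm') (sum_eq_zero_of_nrm hbij hn'), sub_self]
  | succ k ih =>
    intro m n hm hn hm' hn'
    rw [mem_filt_succ] at hm hn hm' hn' ⊢
    intro h hh
    have h1 := der_natural (ρ := reg F G) (reg F G) (MonoidHom.id G) (dif F h)
      (fun g w => dif_reg h g w) x' y' m n a
    simp only [MonoidHom.id_apply] at h1
    rw [map_sub, ← h1]
    refine ih _ _ (hm h hh) (hn h hh) ?_ ?_
    · rw [← dif_nrm]
      exact hm' h hh
    · rw [← dif_nrm]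
      exact hn' h hh

theorem finrank_prod_submodule {A B : Type*} [AddCommGroup A] [Module F A] [AddCommGroup B]
    [Module F B] [FiniteDimensional F A] [FiniteDimensional F B] (p : Submodule F A)
    (q : Submodule F B) : finrank F (p.prod q) ≤ finrank F p + finrank F q := by
  let j : p.prod q →ₗ[F] p × q :=
    (LinearMap.codRestrict p (LinearMap.fst F A B ∘ₗ (p.prod q).subtype) (fun a => a.2.1)).prod
      (LinearMap.codRestrict q (LinearMap.snd F A B ∘ₗ (p.prod q).subtype) (fun a => a.2.2))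
  have hj : Injective j := by
    intro a b hab
    apply Subtype.ext
    apply Prod.ext
    · exact congrArg (fun c : p × q => c.1.1) hab
    · exact congrArg (fun c : p × q => c.2.1) hab
  have := LinearMap.finrank_le_finrank_of_injective hj
  rwa [Module.finrank_prod] at this

theorem finrank_prod_self {A : Type*} [AddCommGroup A] [Module F A] [FiniteDimensional F A] :
    finrank F (A × A) = finrank F A + finrank F A := Module.finrank_prod

theorem count_cocycles [Finite G] [Fintype Ω] {x y : G} {q a b : ℕ}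
    (hgen : ∀ H : Subgroup G, x ∈ H → y ∈ H → ∀ g, g ∈ H)
    (htr : ∀ ω, ∃ g, π g ω₀ = ω) (hq : π (y ^ q) = 1)
    (hbij : Bijective (fun i : Fin q => (π (y ^ (i : ℕ)))⁻¹ ω₀))
    (hbx : ∀ m n : Ω → F, ∑ ω, m ω = 0 → ∑ ω, n ω = 0 →
      der (pr F (MonoidHom.id (Equiv.Perm Ω))) (π x) (π y) a (m, n) = m)
    (hby : ∀ m n : Ω → F, ∑ ω, m ω = 0 → ∑ ω, n ω = 0 →
      der (pr F (MonoidHom.id (Equiv.Perm Ω))) (π y) (π x) b (m, n) = m)
    (hpres : ∀ m n : G → F, der (reg F G) x y a (m, n) = m → der (reg F G) y x b (n, m) = n →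
      ∃ f : G → F, reg F G x f - f = m ∧ reg F G y f - f = n) (k : ℕ) :
    2 * finrank F (filt F π ω₀ (k + 1)) ≤
      finrank F (fixMod F π ω₀ y (k + 1)) + 2 * finrank F (fixMod F π ω₀ y k) := by
  let S : Submodule F (filt F π ω₀ (k + 1)) :=
    (filt F π ω₀ k).comap (nrm F y q ∘ₗ (filt F π ω₀ (k + 1)).subtype)
  have h1 : finrank F (filt F π ω₀ (k + 1)) + finrank F (filt F π ω₀ k) ≤
      finrank F S + finrank F (fixMod F π ω₀ y k) :=
    finrank_comap_ge (nrm F y q ∘ₗ (filt F π ω₀ (k + 1)).subtype) (filt F π ω₀ k)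
      (fixMod F π ω₀ y k) (filt_le_fixMod y k) (fun f => nrm_mem_fixMod hq f.2)
  let ι : S →ₗ[F] (G → F) := (filt F π ω₀ (k + 1)).subtype ∘ₗ S.subtype
  let R : (G → F) × (G → F) →ₗ[F] (G → F) × (G → F) :=
    (der (reg F G) x y a - LinearMap.fst F _ _).prod
      (der (reg F G) y x b ∘ₗ (LinearEquiv.prodComm F _ _).toLinearMap - LinearMap.snd F _ _)
  have hR : ∀ m n, R (m, n) = (der (reg F G) x y a (m, n) - m, der (reg F G) y x b (n, m) - n) :=
    fun _ _ => rfl
  let R' : S × S →ₗ[F] (G → F) × (G → F) := R ∘ₗ ι.prodMap ι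
  have hR' : ∀ c : S × S, R' c ∈ (filt F π ω₀ k).prod (filt F π ω₀ k) := by
    rintro ⟨m, n⟩
    refine ⟨?_, ?_⟩
    · exact der_sub_mem htr hbij x y a hbx k _ _ m.1.2 n.1.2 m.2 n.2
    · exact der_sub_mem htr hbij y x b hby k _ _ n.1.2 m.1.2 n.2 m.2
  have h2 := finrank_comap_ge (F := F) (A := S × S) (B := (G → F) × (G → F)) R' ⊥
    ((filt F π ω₀ k).prod (filt F π ω₀ k)) bot_le hR'
  have h3 := finrank_prod_submodule (filt F π ω₀ k) (filt F π ω₀ k)
  let d : (G → F) →ₗ[F] (G → F) × (G → F) :=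
    (reg F G x - LinearMap.id).prod (reg F G y - LinearMap.id)
  have h4 : ∀ c ∈ (⊥ : Submodule F ((G → F) × (G → F))).comap R',
      ι.prodMap ι c ∈ (fixMod F π ω₀ y (k + 1)).map d := by
    rintro ⟨m, n⟩ hc
    have hc' : R (m.1.1, n.1.1) = 0 := hc
    rw [hR, Prod.mk_eq_zero, sub_eq_zero, sub_eq_zero] at hc'
    obtain ⟨f, hfx, hfy⟩ := hpres _ _ hc'.1 hc'.2
    have hx : x ∈ stabMod π ω₀ (k + 1) f := by
      rw [mem_stabMod, hfx]
      exact m.1.2
    have hy : y ∈ stabMod π ω₀ (k + 1) f := by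
      rw [mem_stabMod, hfy]
      exact n.1.2
    refine ⟨f, mem_fixMod.mpr ⟨mem_succ_of_all _ _ fun g => hgen _ hx hy g, hy⟩, ?_⟩
    exact Prod.ext hfx hfy
  let j : (⊥ : Submodule F ((G → F) × (G → F))).comap R' →ₗ[F]
      (fixMod F π ω₀ y (k + 1)).map d :=
    LinearMap.codRestrict _ (ι.prodMap ι ∘ₗ Submodule.subtype _) (fun c => h4 c.1 c.2)
  have hj : Injective j := by
    intro c c' hcc
    have e : ι.prodMap ι c.1 = ι.prodMap ι c'.1 := congrArg Subtype.val hcc
    apply Subtype.ext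
    apply Prod.ext
    · exact Subtype.ext (Subtype.ext (congrArg Prod.fst e))
    · exact Subtype.ext (Subtype.ext (congrArg Prod.snd e))
  have h5 := LinearMap.finrank_le_finrank_of_injective hj
  have h6 := Submodule.finrank_map_le d (fixMod F π ω₀ y (k + 1))
  have h7 : finrank F (S × S) = finrank F S + finrank F S := finrank_prod_self (A := S)
  rw [h7, finrank_bot] at h2
  omega

/-- A group with two generators and two Engel relations of the described kind is not finite. -/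
theorem not_finite [Fintype Ω] [DecidableEq Ω] {x y : G} {a b : ℕ} (hcard : Fintype.card Ω = 9)
    (hgen : ∀ H : Subgroup G, x ∈ H → y ∈ H → ∀ g, g ∈ H)
    (htr : ∀ ω ω' : Ω, ∃ i : ℕ, π (y ^ i) ω = ω') (hq : π (y ^ 9) = 1)
    (hbij : Bijective (fun i : Fin 9 => (π (y ^ (i : ℕ)))⁻¹ ω₀))
    (hbx : ∀ m n : Ω → F, ∑ ω, m ω = 0 → ∑ ω, n ω = 0 →
      der (pr F (MonoidHom.id (Equiv.Perm Ω))) (π x) (π y) a (m, n) = m)
    (hby : ∀ m n : Ω → F, ∑ ω, m ω = 0 → ∑ ω, n ω = 0 →
      der (pr F (MonoidHom.id (Equiv.Perm Ω))) (π y) (π x) b (m, n) = m)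
    (hpres : ∀ m n : G → F, der (reg F G) x y a (m, n) = m → der (reg F G) y x b (n, m) = n →
      ∃ f : G → F, reg F G x f - f = m ∧ reg F G y f - f = n) : ¬ Finite G := by
  intro hfin
  have htr' : ∀ ω, ∃ g, π g ω₀ = ω := fun ω => (htr ω₀ ω).elim fun i hi => ⟨_, hi⟩
  have hA := fun k => count_fix (F := F) (π := π) (ω₀ := ω₀) y htr k
  have hB := count_cocycles hgen htr' hq hbij hbx hby hpres
  rw [hcard] at hA
  have h0 : finrank F (filt F π ω₀ 0) = 0 := finrank_bot F _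
  have h1 : 0 < finrank F (filt F π ω₀ 1) := by
    rw [Module.finrank_pos_iff_exists_ne_zero]
    refine ⟨⟨fun _ => 1, ?_⟩, ?_⟩
    · rw [mem_filt_succ]
      intro h _
      rw [mem_filt_zero]
      ext t
      simp [dif_apply]
    · intro h
      have := congrFun (congrArg Subtype.val h) 1
      simp at this
  have hgrow : ∀ k, 4 * finrank F (filt F π ω₀ k) + 1 ≤ finrank F (filt F π ω₀ (k + 1)) := by
    intro k
    induction k with
    | zero => rw [h0]; exact h1
    | succ k ih =>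
      have e1 := hA k
      have e2 := hA (k + 1)
      have e3 := hB k
      omega
  have hlin : ∀ k, k ≤ finrank F (filt F π ω₀ k) := by
    intro k
    induction k with
    | zero => exact Nat.zero_le _
    | succ k ih =>
      have := hgrow k
      omega
  have h2 := hlin (finrank F (G → F) + 1)
  have h3 := (filt F π ω₀ (finrank F (G → F) + 1)).finrank_le
  omega

end Count

end Pool.Agent.Lib.MP_954a1f_al
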