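import Pool.Agent.Lib.MP_954a1f_al.Main

/-!
The explicit common period `180` of all lifts of the two 9-cycles to the extension by the
sum-zero module over `ZMod 2`; hence `G(180,180)` is infinite.
-/

set_option autoImplicit false

namespace Pool.Agent.Lib.MP_954a1f_al

open Function Module

/-- Evaluate `c` and pass the value on. -/
def force (c : ZMod 2) (k : ZMod 2 → Bool) : Bool := if c = 0 then k 0 else k 1

theorem force_eq (c : ZMod 2) (k : ZMod 2 → Bool) : force c k = k c := by
  have h : ∀ c : ZMod 2, c = 0 ∨ c = 1 := by decide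
  rcases h c with rfl | rfl
  · simp [force]
  · simp [force]

/-- Evaluate the nine entries of `v` and pass the vector on. -/
def forceVec (v : Fin 9 → ZMod 2) (k : (Fin 9 → ZMod 2) → Bool) : Bool :=
  force (v 0) fun a0 => force (v 1) fun a1 => force (v 2) fun a2 => force (v 3) fun a3 =>
  force (v 4) fun a4 => force (v 5) fun a5 => force (v 6) fun a6 => force (v 7) fun a7 =>
  force (v 8) fun a8 => k ![a0, a1, a2, a3, a4, a5, a6, a7, a8]

theorem forceVec_eq (v : Fin 9 → ZMod 2) (k : (Fin 9 → ZMod 2) → Bool) :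
    forceVec v k = k v := by
  simp only [forceVec, force_eq]
  congr 1
  ext i
  fin_cases i <;> rfl

/-- One step of the module component. -/
def stepVec (y z : Equiv.Perm (Fin 9)) (n m : Fin 9 → ZMod 2) : Fin 9 → ZMod 2 :=
  fun s => (m (y (z s)) - m (z s)) + (n (z.symm (y (z s))) - n (y (z s)))

/-- Run `k` steps along the orbit `Z`, starting at position `i`, and compare with `t`. -/
def run (y : Equiv.Perm (Fin 9)) (Z : Fin 18 → Equiv.Perm (Fin 9)) (n t : Fin 9 → ZMod 2) :
    ℕ → Fin 18 → (Fin 9 → ZMod 2) → Bool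
  | 0, _, m => decide (∀ s, m s = t s)
  | k + 1, i, m => forceVec (stepVec y (Z i) n m) fun m' => run y Z n t k (i + 1) m'

/-- The permutation module on nine points. -/
abbrev rho9 : Representation (ZMod 2) (Equiv.Perm (Fin 9)) (Fin 9 → ZMod 2) :=
  pr (ZMod 2) (MonoidHom.id (Equiv.Perm (Fin 9)))

theorem eng_step (y z : Equiv.Perm (Fin 9)) (n m : Fin 9 → ZMod 2) :
    eng (⟨n, y⟩ : SD rho9) ⟨m, z⟩ = ⟨stepVec y z n m, eng y z⟩ := by
  rw [eng_SD]
  congr 1

theorem run_spec (y : Equiv.Perm (Fin 9)) (Z : Fin 18 → Equiv.Perm (Fin 9))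
    (hZ : ∀ i, Z (i + 1) = eng y (Z i)) (n t : Fin 9 → ZMod 2) (k : ℕ) :
    ∀ (i : Fin 18) (m : Fin 9 → ZMod 2), run y Z n t k i m = true →
      ((eng (⟨n, y⟩ : SD rho9))^[k] ⟨m, Z i⟩).v = t := by
  induction k with
  | zero =>
    intro i m h
    have h1 : ∀ s, m s = t s := of_decide_eq_true h
    exact funext h1
  | succ k ih =>
    intro i m h
    rw [run, forceVec_eq] at h
    rw [iterate_succ_apply, eng_step, ← hZ]
    exact ih _ _ h

/-- The vectors `e j + e 0`, which span the sum-zero module. -/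
def bas (j : Fin 9) : Fin 9 → ZMod 2 :=
  fun t => (if t = j then 1 else 0) + (if t = 0 then 1 else 0)

theorem sum_bas (m : Fin 9 → ZMod 2) (hm : ∑ ω, m ω = 0) : ∑ j, m j • bas j = m := by
  ext t
  simp only [Finset.sum_apply, Pi.smul_apply, bas, smul_eq_mul, mul_add, Finset.sum_add_distrib,
    ← Finset.sum_mul, hm, zero_mul, add_zero]
  simp

theorem der_eq_of_run (x y : Equiv.Perm (Fin 9)) (Z : Fin 18 → Equiv.Perm (Fin 9)) (h0 : Z 0 = x)
    (hZ : ∀ i, Z (i + 1) = eng y (Z i)) (k : ℕ)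
    (h1 : ∀ j, run y Z (fun _ => 0) (bas j) k 0 (bas j) = true)
    (h2 : ∀ j, run y Z (bas j) (fun _ => 0) k 0 (fun _ => 0) = true)
    (m n : Fin 9 → ZMod 2) (hm : ∑ ω, m ω = 0) (hn : ∑ ω, n ω = 0) :
    der rho9 x y k (m, n) = m := by
  have e1 : ∀ j, der rho9 x y k (bas j, 0) = bas j := by
    intro j
    have := run_spec y Z hZ _ _ k 0 _ (h1 j)
    rwa [eng_iterate_SD, h0] at this
  have e2 : ∀ j, der rho9 x y k (0, bas j) = 0 := by
    intro j
    have := run_spec y Z hZ _ _ k 0 _ (h2 j)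
    rwa [eng_iterate_SD, h0] at this
  have e3 : ((m, n) : (Fin 9 → ZMod 2) × (Fin 9 → ZMod 2)) =
      ∑ j, m j • (bas j, 0) + ∑ j, n j • (0, bas j) := by
    ext1
    · simp only [Prod.fst_add, Prod.fst_sum, Prod.smul_fst, smul_zero, Finset.sum_const_zero,
        add_zero, sum_bas m hm]
    · simp only [Prod.snd_add, Prod.snd_sum, Prod.smul_snd, smul_zero, Finset.sum_const_zero,
        zero_add, sum_bas n hn]
  rw [e3, map_add, map_sum, map_sum]
  simp only [map_smul, e1, e2, smul_zero, Finset.sum_const_zero, add_zero, sum_bas m hm]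

theorem run_x1 : ∀ j, run yp zs (fun _ => 0) (bas j) 180 0 (bas j) = true := by decide +kernel

theorem run_x2 : ∀ j, run yp zs (bas j) (fun _ => 0) 180 0 (fun _ => 0) = true := by
  decide +kernel

theorem run_y1 : ∀ j, run xp ws (fun _ => 0) (bas j) 180 0 (bas j) = true := by decide +kernel

theorem run_y2 : ∀ j, run xp ws (bas j) (fun _ => 0) 180 0 (fun _ => 0) = true := by
  decide +kernel

theorem xp_180 : (eng yp)^[180] xp = xp := by
  have h : IsPeriodicPt (fun i : Fin 18 => i + 1) 18 0 := by decide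
  exact (h.map (g := zs) zs_step).mul_const 10

theorem yp_180 : (eng xp)^[180] yp = yp := by
  have h : IsPeriodicPt (fun i : Fin 18 => i + 1) 18 0 := by decide
  exact (h.map (g := ws) ws_step).mul_const 10

theorem not_finite_of (a b : ℕ) (hxa : (eng yp)^[a] xp = xp) (hyb : (eng xp)^[b] yp = yp)
    (hda : ∀ m n : Fin 9 → ZMod 2, ∑ ω, m ω = 0 → ∑ ω, n ω = 0 → der rho9 xp yp a (m, n) = m)
    (hdb : ∀ m n : Fin 9 → ZMod 2, ∑ ω, m ω = 0 → ∑ ω, n ω = 0 → der rho9 yp xp b (m, n) = m) :
    ¬ Finite (PresentedGroup (rels a b)) := by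
  let π : PresentedGroup (rels a b) →* Equiv.Perm (Fin 9) :=
    PresentedGroup.toGroup (lift_rels hxa hyb)
  have h0 : π (PresentedGroup.of 0) = xp := PresentedGroup.toGroup.of _
  have h1 : π (PresentedGroup.of 1) = yp := PresentedGroup.toGroup.of _
  refine not_finite (F := ZMod 2) (π := π) (ω₀ := 0) (x := PresentedGroup.of 0)
    (y := PresentedGroup.of 1) (a := a) (b := b) (Fintype.card_fin 9) ?_ ?_ ?_ ?_ ?_ ?_
    (coboundary a b)
  · intro H hx hy g
    refine PresentedGroup.generated_by _ H (fun j => ?_) g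
    fin_cases j
    · exact hx
    · exact hy
  · intro ω ω'
    obtain ⟨i, hi⟩ := yp_trans ω ω'
    exact ⟨i, by rw [map_pow, h1, hi]⟩
  · rw [map_pow, h1, yp_pow]
  · simp only [map_pow, h1]
    exact yp_bij
  · intro m n hm hn
    rw [h0, h1]
    exact hda m n hm hn
  · intro m n hm hn
    rw [h0, h1]
    exact hdb m n hm hn

theorem not_finite_180 : ¬ Finite (PresentedGroup (rels 180 180)) :=
  not_finite_of 180 180 xp_180 yp_180
    (der_eq_of_run xp yp zs rfl zs_step 180 run_x1 run_x2)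
    (der_eq_of_run yp xp ws rfl ws_step 180 run_y1 run_y2)

end Pool.Agent.Lib.MP_954a1f_al
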