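import Pool.Agent.Lib.MP_954a1f_al.Basic

/-!
The filtration of the functions on a group `G` by polynomial degree with respect to right
translation by a point stabiliser, and the dimension counts of Golod and Shafarevich type.
-/

set_option autoImplicit false

namespace Pool.Agent.Lib.MP_954a1f_al

open Function Module

theorem finrank_comap_ge {F A B : Type*} [Field F] [AddCommGroup A] [Module F A] [AddCommGroup B]
    [Module F B] [FiniteDimensional F A] [FiniteDimensional F B] (f : A →ₗ[F] B)
    (B1 B2 : Submodule F B) (h12 : B1 ≤ B2) (hf : ∀ a, f a ∈ B2) :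
    finrank F A + finrank F B1 ≤ finrank F (B1.comap f) + finrank F B2 := by
  let g : A →ₗ[F] (B2 ⧸ B1.comap B2.subtype) :=
    (B1.comap B2.subtype).mkQ ∘ₗ f.codRestrict B2 hf
  have hker : LinearMap.ker g = B1.comap f := by
    ext a
    simp [g]
  have h1 := g.finrank_range_add_finrank_ker
  have h2 := (B1.comap B2.subtype).finrank_quotient_add_finrank
  have h3 : finrank F (B1.comap B2.subtype) = finrank F B1 :=
    (Submodule.comapSubtypeEquivOfLe h12).finrank_eq
  have h4 := (LinearMap.range g).finrank_le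
  rw [hker] at h1
  omega

/-- The permutation representation on functions. -/
def pr (F : Type*) [Field F] {G X : Type*} [Group G] (π : G →* Equiv.Perm X) :
    Representation F G (X → F) where
  toFun g := LinearMap.funLeft F F ((π g)⁻¹ : Equiv.Perm X)
  map_one' := by
    ext f t
    simp
  map_mul' g h := by
    ext f t
    simp [LinearMap.funLeft_apply]

theorem pr_apply (F : Type*) [Field F] {G X : Type*} [Group G] (π : G →* Equiv.Perm X) (g : G)
    (f : X → F) (t : X) : pr F π g f t = f ((π g)⁻¹ t) := rfl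

/-- The regular representation on functions. -/
def reg (F : Type*) [Field F] (G : Type*) [Group G] : Representation F G (G → F) :=
  pr F (MulAction.toPermHom G G)

theorem reg_apply (F : Type*) [Field F] {G : Type*} [Group G] (g : G) (f : G → F) (t : G) :
    reg F G g f t = f (g⁻¹ * t) := rfl

section Filt

variable {F : Type*} [Field F] {G : Type*} [Group G] {Ω : Type*}

/-- The difference operator of right translation. -/
def dif (F : Type*) [Field F] {G : Type*} [Group G] (h : G) : (G → F) →ₗ[F] (G → F) :=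
  LinearMap.funLeft F F (fun t => t * h) - LinearMap.id

theorem dif_apply (h : G) (f : G → F) (t : G) : dif F h f t = f (t * h) - f t := rfl

/-- Functions of polynomial degree `< n` for right translation by the stabiliser of `ω₀`. -/
def filt (F : Type*) [Field F] (π : G →* Equiv.Perm Ω) (ω₀ : Ω) : ℕ → Submodule F (G → F)
  | 0 => ⊥
  | n + 1 => ⨅ h : {h : G // π h ω₀ = ω₀}, (filt F π ω₀ n).comap (dif F h.1)

variable {π : G →* Equiv.Perm Ω} {ω₀ : Ω}

theorem mem_filt_zero {f : G → F} : f ∈ filt F π ω₀ 0 ↔ f = 0 := Submodule.mem_bot F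

theorem mem_filt_succ {n : ℕ} {f : G → F} :
    f ∈ filt F π ω₀ (n + 1) ↔ ∀ h, π h ω₀ = ω₀ → dif F h f ∈ filt F π ω₀ n := by
  simp [filt, Submodule.mem_iInf]

theorem map_mem_filt (φ : (G → F) →ₗ[F] (G → F))
    (hφ : ∀ h f, π h ω₀ = ω₀ → dif F h (φ f) = φ (dif F h f)) :
    ∀ (n : ℕ) (f : G → F), f ∈ filt F π ω₀ n → φ f ∈ filt F π ω₀ n := by
  intro n
  induction n with
  | zero =>
    intro f hf
    rw [mem_filt_zero] at hf ⊢
    rw [hf, map_zero]
  | succ n ih =>
    intro f hf
    rw [mem_filt_succ] at hf ⊢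
    intro h hh
    rw [hφ h f hh]
    exact ih _ (hf h hh)

theorem filt_mono (n : ℕ) : filt F π ω₀ n ≤ filt F π ω₀ (n + 1) := by
  induction n with
  | zero => exact bot_le
  | succ n ih =>
    intro f hf
    rw [mem_filt_succ] at hf ⊢
    intro h hh
    exact ih (hf h hh)

theorem dif_reg (h g : G) (f : G → F) : dif F h (reg F G g f) = reg F G g (dif F h f) := by
  ext t
  simp only [dif_apply, reg_apply, mul_assoc]

theorem reg_mem (g : G) {n : ℕ} {f : G → F} (hf : f ∈ filt F π ω₀ n) :
    reg F G g f ∈ filt F π ω₀ n :=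
  map_mem_filt _ (fun h f _ => dif_reg h g f) n f hf

theorem reg_sub_mem_of_ker {g : G} (hg : π g = 1) :
    ∀ (n : ℕ) (f : G → F), f ∈ filt F π ω₀ (n + 1) → reg F G g f - f ∈ filt F π ω₀ n := by
  intro n
  induction n with
  | zero =>
    intro f hf
    rw [mem_filt_succ] at hf
    rw [mem_filt_zero]
    ext t
    have h1 := hf (t⁻¹ * g⁻¹ * t) (by simp [hg])
    rw [mem_filt_zero] at h1
    have h2 := congrFun h1 t
    rw [dif_apply] at h2
    simpa [reg_apply, mul_assoc] using h2
  | succ n ih =>
    intro f hf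
    rw [mem_filt_succ] at hf ⊢
    intro h hh
    rw [map_sub, dif_reg]
    exact ih _ (hf h hh)

theorem mem_succ_of_all :
    ∀ (n : ℕ) (f : G → F), (∀ g, reg F G g f - f ∈ filt F π ω₀ n) → f ∈ filt F π ω₀ (n + 1) := by
  intro n
  induction n with
  | zero =>
    intro f hf
    rw [mem_filt_succ]
    intro h _
    rw [mem_filt_zero]
    ext t
    have h1 := hf (t * h⁻¹ * t⁻¹)
    rw [mem_filt_zero] at h1
    have h2 := congrFun h1 t
    simpa [reg_apply, dif_apply, mul_assoc] using h2
  | succ n ih =>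
    intro f hf
    rw [mem_filt_succ]
    intro h hh
    apply ih
    intro g
    have := mem_filt_succ.mp (hf g) h hh
    rwa [map_sub, dif_reg] at this

/-- The elements `g` that fix `f` modulo the `n`-th step of the filtration. -/
def stabMod (π : G →* Equiv.Perm Ω) (ω₀ : Ω) (n : ℕ) (f : G → F) : Subgroup G where
  carrier := {g | reg F G g f - f ∈ filt F π ω₀ n}
  one_mem' := by simp
  mul_mem' := by
    intro g h hg hh
    have : reg F G (g * h) f - f = reg F G g (reg F G h f - f) + (reg F G g f - f) := by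
      simp [map_sub]
    show reg F G (g * h) f - f ∈ filt F π ω₀ n
    rw [this]
    exact Submodule.add_mem _ (reg_mem g hh) hg
  inv_mem' := by
    intro g hg
    have : reg F G g⁻¹ f - f = - reg F G g⁻¹ (reg F G g f - f) := by
      rw [map_sub, ← Module.End.mul_apply, ← map_mul, inv_mul_cancel, map_one,
        Module.End.one_apply, neg_sub]
    show reg F G g⁻¹ f - f ∈ filt F π ω₀ n
    rw [this]
    exact Submodule.neg_mem _ (reg_mem g⁻¹ hg)

theorem mem_stabMod {n : ℕ} {f : G → F} {g : G} :
    g ∈ stabMod π ω₀ n f ↔ reg F G g f - f ∈ filt F π ω₀ n := Iff.rfl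

variable [DecidableEq Ω]

/-- Multiplication by the indicator function of a coset of the stabiliser. -/
def ind (F : Type*) [Field F] (π : G →* Equiv.Perm Ω) (ω₀ ω : Ω) : (G → F) →ₗ[F] (G → F) where
  toFun f := fun t => if π t ω₀ = ω then f t else 0
  map_add' f g := by
    ext t
    by_cases h : π t ω₀ = ω <;> simp [h]
  map_smul' c f := by
    ext t
    by_cases h : π t ω₀ = ω <;> simp [h]

theorem ind_apply (ω : Ω) (f : G → F) (t : G) :
    ind F π ω₀ ω f t = if π t ω₀ = ω then f t else 0 := rfl

theorem ind_mem (ω : Ω) {n : ℕ} {f : G → F} (hf : f ∈ filt F π ω₀ n) :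
    ind F π ω₀ ω f ∈ filt F π ω₀ n := by
  refine map_mem_filt _ ?_ n f hf
  intro h f hh
  ext t
  simp only [dif_apply, ind_apply, map_mul, Equiv.Perm.mul_apply, hh]
  by_cases h : π t ω₀ = ω <;> simp [h]

theorem sum_ind [Fintype Ω] (f : G → F) : ∑ ω, ind F π ω₀ ω f = f := by
  ext t
  simp [Finset.sum_apply, ind_apply]

theorem ind_sum_ind [Fintype Ω] (ω : Ω) (f : Ω → G → F) :
    ind F π ω₀ ω (∑ ω', ind F π ω₀ ω' (f ω')) = ind F π ω₀ ω (f ω) := by
  ext t
  by_cases h : π t ω₀ = ω
  · simp [Finset.sum_apply, ind_apply, h]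
  · simp [ind_apply, h]

theorem reg_ind (g : G) (ω : Ω) (f : G → F) :
    reg F G g (ind F π ω₀ ω f) = ind F π ω₀ (π g ω) (reg F G g f) := by
  ext t
  simp only [reg_apply, ind_apply, map_mul, map_inv, Equiv.Perm.mul_apply]
  have : (π g)⁻¹ (π t ω₀) = ω ↔ π t ω₀ = π g ω := Equiv.Perm.inv_eq_iff_eq
  simp only [this]

/-- If a function is fixed by a transitive set of elements modulo `filt n` and one coset piece of it
lies in `filt n`, then it lies in `filt n`. -/
theorem mem_of_ind_mem [Fintype Ω] {n : ℕ} {f : G → F} (ω : Ω)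
    (htr : ∀ ω', ∃ g ∈ stabMod π ω₀ n f, π g ω = ω')
    (hf : ind F π ω₀ ω f ∈ filt F π ω₀ n) : f ∈ filt F π ω₀ n := by
  rw [← sum_ind (π := π) (ω₀ := ω₀) f]
  refine Submodule.sum_mem _ fun ω' _ => ?_
  obtain ⟨g, hg, rfl⟩ := htr ω'
  have h1 := reg_mem g hf
  rw [reg_ind] at h1
  have h2 := ind_mem (π g ω) (mem_stabMod.mp hg)
  rw [map_sub] at h2
  have := Submodule.sub_mem _ h1 h2
  simpa using this

end Filt

end Pool.Agent.Lib.MP_954a1f_al
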