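import Pool.Agent.Lib.MP_954a1f_al.Count

/-!
Two mutually Engel periodic 9-cycles (they generate `PSL(2,8)` acting on the projective line), and
the infinite group `G(a,b)`.
-/

set_option autoImplicit false

namespace Pool.Agent.Lib.MP_954a1f_al

open Function Module

/-- A 9-cycle. -/
def xp : Equiv.Perm (Fin 9) :=
  ⟨![3, 4, 8, 7, 0, 2, 1, 5, 6], ![4, 6, 5, 0, 1, 7, 8, 3, 2], by decide, by decide⟩

/-- The 9-cycle `i ↦ i + 1`. -/
def yp : Equiv.Perm (Fin 9) :=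
  ⟨![1, 2, 3, 4, 5, 6, 7, 8, 0], ![8, 0, 1, 2, 3, 4, 5, 6, 7], by decide, by decide⟩

/-- The orbit of `xp` under the Engel map of `yp`. -/
def zs : Fin 18 → Equiv.Perm (Fin 9) :=
  ![xp,
    ⟨![0, 3, 8, 2, 6, 4, 1, 7, 5], ![0, 6, 3, 1, 5, 8, 4, 7, 2], by decide, by decide⟩,
    ⟨![3, 7, 6, 8, 1, 0, 4, 5, 2], ![5, 4, 8, 0, 6, 7, 2, 1, 3], by decide, by decide⟩,
    ⟨![2, 7, 1, 5, 3, 0, 6, 4, 8], ![5, 2, 0, 4, 7, 3, 6, 1, 8], by decide, by decide⟩,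
    ⟨![6, 5, 7, 0, 8, 3, 4, 1, 2], ![3, 7, 8, 5, 6, 1, 0, 2, 4], by decide, by decide⟩,
    ⟨![6, 0, 4, 2, 8, 5, 3, 7, 1], ![1, 8, 3, 6, 2, 5, 0, 7, 4], by decide, by decide⟩,
    ⟨![4, 6, 8, 7, 2, 3, 0, 1, 5], ![6, 7, 4, 5, 0, 8, 1, 3, 2], by decide, by decide⟩,
    ⟨![8, 3, 1, 7, 4, 2, 6, 0, 5], ![7, 2, 5, 1, 4, 8, 6, 3, 0], by decide, by decide⟩,
    ⟨![5, 7, 6, 1, 2, 8, 0, 4, 3], ![6, 3, 4, 8, 7, 0, 2, 1, 5], by decide, by decide⟩,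
    ⟨![2, 0, 6, 3, 1, 5, 8, 4, 7], ![1, 4, 0, 3, 7, 5, 2, 8, 6], by decide, by decide⟩,
    ⟨![6, 5, 0, 1, 7, 8, 3, 2, 4], ![2, 3, 7, 6, 8, 1, 0, 4, 5], by decide, by decide⟩,
    ⟨![8, 5, 2, 0, 4, 7, 3, 6, 1], ![3, 8, 2, 6, 4, 1, 7, 5, 0], by decide, by decide⟩,
    ⟨![4, 8, 0, 6, 7, 2, 1, 3, 5], ![2, 6, 5, 7, 0, 8, 3, 4, 1], by decide, by decide⟩,
    ⟨![4, 1, 8, 3, 6, 2, 5, 0, 7], ![7, 1, 5, 3, 0, 6, 4, 8, 2], by decide, by decide⟩,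
    ⟨![7, 8, 5, 6, 1, 0, 2, 4, 3], ![5, 4, 6, 8, 7, 2, 3, 0, 1], by decide, by decide⟩,
    ⟨![0, 7, 2, 5, 1, 4, 8, 6, 3], ![0, 4, 2, 8, 5, 3, 7, 1, 6], by decide, by decide⟩,
    ⟨![7, 4, 5, 0, 8, 1, 3, 2, 6], ![3, 5, 7, 6, 1, 2, 8, 0, 4], by decide, by decide⟩,
    ⟨![6, 1, 4, 0, 3, 7, 5, 2, 8], ![3, 1, 7, 4, 2, 6, 0, 5, 8], by decide, by decide⟩]

/-- The orbit of `yp` under the Engel map of `xp`. -/
def ws : Fin 18 → Equiv.Perm (Fin 9) :=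
  ![yp,
    ⟨![0, 6, 3, 1, 5, 8, 4, 7, 2], ![0, 3, 8, 2, 6, 4, 1, 7, 5], by decide, by decide⟩,
    ⟨![1, 7, 4, 2, 6, 0, 5, 8, 3], ![5, 0, 3, 8, 2, 6, 4, 1, 7], by decide, by decide⟩,
    ⟨![6, 7, 5, 3, 4, 0, 8, 2, 1], ![5, 8, 7, 3, 4, 2, 0, 1, 6], by decide, by decide⟩,
    ⟨![5, 8, 0, 2, 6, 1, 3, 4, 7], ![2, 5, 3, 6, 7, 0, 4, 8, 1], by decide, by decide⟩,
    ⟨![0, 1, 6, 5, 8, 7, 3, 4, 2], ![0, 1, 8, 6, 7, 3, 2, 5, 4], by decide, by decide⟩,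
    ⟨![5, 8, 3, 1, 7, 4, 2, 6, 0], ![8, 3, 6, 2, 5, 0, 7, 4, 1], by decide, by decide⟩,
    ⟨![7, 2, 5, 1, 4, 8, 6, 3, 0], ![8, 3, 1, 7, 4, 2, 6, 0, 5], by decide, by decide⟩,
    ⟨![6, 3, 4, 8, 7, 0, 2, 1, 5], ![5, 7, 6, 1, 2, 8, 0, 4, 3], by decide, by decide⟩,
    ⟨![6, 1, 4, 0, 3, 7, 5, 2, 8], ![3, 1, 7, 4, 2, 6, 0, 5, 8], by decide, by decide⟩,
    ⟨![2, 3, 7, 6, 8, 1, 0, 4, 5], ![6, 5, 0, 1, 7, 8, 3, 2, 4], by decide, by decide⟩,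
    ⟨![4, 0, 2, 5, 8, 1, 6, 3, 7], ![1, 5, 2, 7, 0, 3, 6, 8, 4], by decide, by decide⟩,
    ⟨![8, 2, 7, 1, 5, 3, 0, 6, 4], ![6, 3, 1, 5, 8, 4, 7, 2, 0], by decide, by decide⟩,
    ⟨![7, 2, 3, 0, 1, 5, 4, 6, 8], ![3, 4, 1, 2, 6, 5, 7, 0, 8], by decide, by decide⟩,
    ⟨![6, 7, 1, 8, 2, 3, 5, 0, 4], ![7, 2, 4, 5, 8, 6, 0, 1, 3], by decide, by decide⟩,
    ⟨![4, 6, 2, 8, 3, 0, 5, 7, 1], ![5, 8, 2, 4, 0, 6, 1, 7, 3], by decide, by decide⟩,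
    ⟨![2, 5, 1, 4, 8, 6, 3, 0, 7], ![7, 2, 0, 6, 3, 1, 5, 8, 4], by decide, by decide⟩,
    ⟨![2, 0, 6, 3, 1, 5, 8, 4, 7], ![1, 4, 0, 3, 7, 5, 2, 8, 6], by decide, by decide⟩]


theorem zs_step : ∀ i, zs (i + 1) = eng yp (zs i) := by decide +kernel

theorem ws_step : ∀ i, ws (i + 1) = eng xp (ws i) := by decide +kernel

theorem xp_periodic : xp ∈ periodicPts (eng yp) := by
  have h : IsPeriodicPt (fun i : Fin 18 => i + 1) 18 0 := by decide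
  exact mk_mem_periodicPts (by norm_num) (h.map (g := zs) zs_step)

theorem yp_periodic : yp ∈ periodicPts (eng xp) := by
  have h : IsPeriodicPt (fun i : Fin 18 => i + 1) 18 0 := by decide
  exact mk_mem_periodicPts (by norm_num) (h.map (g := ws) ws_step)

theorem xp_trans : ∀ ω ω' : Fin 9, ∃ i : Fin 9, (xp ^ (i : ℕ)) ω = ω' := by decide +kernel

theorem yp_trans : ∀ ω ω' : Fin 9, ∃ i : Fin 9, (yp ^ (i : ℕ)) ω = ω' := by decide +kernel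

theorem yp_pow : yp ^ 9 = 1 := by decide +kernel

theorem yp_bij : Bijective (fun i : Fin 9 => (yp ^ (i : ℕ))⁻¹ (0 : Fin 9)) := by decide +kernel

/-- Functions on nine points with values in `ZMod 2` and sum zero. -/
def sumZero : Submodule (ZMod 2) (Fin 9 → ZMod 2) where
  carrier := {m | ∑ ω, m ω = 0}
  add_mem' := by
    intro a b ha hb
    simp only [Set.mem_ofPred_eq, Pi.add_apply, Finset.sum_add_distrib] at ha hb ⊢
    rw [ha, hb, add_zero]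
  zero_mem' := by simp
  smul_mem' := by
    intro c a ha
    simp only [Set.mem_ofPred_eq, Pi.smul_apply, smul_eq_mul, ← Finset.mul_sum] at ha ⊢
    rw [ha, mul_zero]

theorem mem_sumZero {m : Fin 9 → ZMod 2} : m ∈ sumZero ↔ ∑ ω, m ω = 0 := Iff.rfl

theorem sumZero_inv (g : Equiv.Perm (Fin 9)) (v : Fin 9 → ZMod 2) (hv : v ∈ sumZero) :
    pr (ZMod 2) (MonoidHom.id (Equiv.Perm (Fin 9))) g v ∈ sumZero := by
  rw [mem_sumZero] at hv ⊢
  rw [← hv]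
  exact Equiv.sum_comp (g⁻¹ : Equiv.Perm (Fin 9)) v

theorem no_fixed (p : Equiv.Perm (Fin 9))
    (hp : ∀ ω ω' : Fin 9, ∃ i : Fin 9, (p ^ (i : ℕ)) ω = ω') (v : Fin 9 → ZMod 2)
    (hv : v ∈ sumZero) (h : pr (ZMod 2) (MonoidHom.id (Equiv.Perm (Fin 9))) p⁻¹ v = v) : v = 0 := by
  have h1 : ∀ ω, v (p ω) = v ω := by
    intro ω
    have := congrFun h ω
    simpa [pr_apply] using this
  have h2 : ∀ (i : ℕ) ω, v ((p ^ i) ω) = v ω := by
    intro i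
    induction i with
    | zero => simp
    | succ i ih =>
      intro ω
      rw [pow_succ', Equiv.Perm.mul_apply, h1, ih]
  have h3 : ∀ ω, v ω = v 0 := by
    intro ω
    obtain ⟨i, hi⟩ := hp 0 ω
    rw [← hi, h2]
  rw [mem_sumZero, Finset.sum_congr rfl (fun ω _ => h3 ω)] at hv
  have h4 : ∀ c : ZMod 2, ∑ _ω : Fin 9, c = 0 → c = 0 := by decide
  ext ω
  rw [h3, h4 _ hv]
  rfl

/-- The two relators of `G(a,b)`. -/
def rels (a b : ℕ) : Set (FreeGroup (Fin 2)) :=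
  {(eng (FreeGroup.of (1 : Fin 2)))^[a] (FreeGroup.of (0 : Fin 2)) * (FreeGroup.of (0 : Fin 2))⁻¹,
   (eng (FreeGroup.of (0 : Fin 2)))^[b] (FreeGroup.of (1 : Fin 2)) * (FreeGroup.of (1 : Fin 2))⁻¹}

theorem lift_rels {H : Type*} [Group H] {a b : ℕ} {u v : H} (hu : (eng v)^[a] u = u)
    (hv : (eng u)^[b] v = v) : ∀ r ∈ rels a b, FreeGroup.lift ![u, v] r = 1 := by
  intro r hr
  rcases hr with rfl | rfl
  · rw [map_mul, map_inv, map_eng_iterate]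
    simp [hu]
  · rw [map_mul, map_inv, map_eng_iterate]
    simp [hv]

theorem rel_x (a b : ℕ) :
    (eng (PresentedGroup.of 1 : PresentedGroup (rels a b)))^[a] (PresentedGroup.of 0) =
      PresentedGroup.of 0 := by
  have h := PresentedGroup.mk_eq_mk_of_mul_inv_mem (rels := rels a b) (Or.inl rfl)
  rwa [map_eng_iterate] at h

theorem rel_y (a b : ℕ) :
    (eng (PresentedGroup.of 0 : PresentedGroup (rels a b)))^[b] (PresentedGroup.of 1) =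
      PresentedGroup.of 1 := by
  have h := PresentedGroup.mk_eq_mk_of_mul_inv_mem (rels := rels a b) (Or.inr rfl)
  rwa [map_eng_iterate] at h

theorem coboundary {F : Type*} [Field F] (a b : ℕ) (m n : PresentedGroup (rels a b) → F)
    (hm : der (reg F _) (PresentedGroup.of 0) (PresentedGroup.of 1) a (m, n) = m)
    (hn : der (reg F _) (PresentedGroup.of 1) (PresentedGroup.of 0) b (n, m) = n) :
    ∃ f : PresentedGroup (rels a b) → F,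
      reg F _ (PresentedGroup.of 0) f - f = m ∧ reg F _ (PresentedGroup.of 1) f - f = n := by
  let u : SD (reg F (PresentedGroup (rels a b))) := ⟨m, PresentedGroup.of 0⟩
  let v : SD (reg F (PresentedGroup (rels a b))) := ⟨n, PresentedGroup.of 1⟩
  have hu : (eng v)^[a] u = u := by
    rw [eng_iterate_SD, hm, rel_x]
  have hv : (eng u)^[b] v = v := by
    rw [eng_iterate_SD, hn, rel_y]
  let Φ := PresentedGroup.toGroup (lift_rels hu hv)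
  have h0 : Φ (PresentedGroup.of 0) = u := PresentedGroup.toGroup.of _
  have h1 : Φ (PresentedGroup.of 1) = v := PresentedGroup.toGroup.of _
  have hid : (SD.proj _).comp Φ = MonoidHom.id _ := by
    ext i
    fin_cases i
    · exact congrArg SD.g h0
    · exact congrArg SD.g h1
  have hg : ∀ g, (Φ g).g = g := fun g => DFunLike.congr_fun hid g
  have key : ∀ g, reg F _ g (fun t => (Φ t⁻¹).v 1) - (fun t => (Φ t⁻¹).v 1) = (Φ g).v := by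
    intro g
    ext t
    simp only [Pi.sub_apply, reg_apply, mul_inv_rev, inv_inv]
    rw [map_mul, SD.mul_v, hg, Pi.add_apply, reg_apply, inv_inv, mul_one, add_sub_cancel_left]
  refine ⟨fun t => (Φ t⁻¹).v 1, ?_, ?_⟩
  · rw [key, h0]
  · rw [key, h1]

theorem exists_infinite : ∃ a b : ℕ, 1 ≤ a ∧ 1 ≤ b ∧ ¬ Finite (PresentedGroup (rels a b)) := by
  obtain ⟨a, ha, hxa, hda⟩ := exists_period sumZero sumZero_inv xp yp
    (no_fixed yp yp_trans) xp_periodic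
  obtain ⟨b, hb, hyb, hdb⟩ := exists_period sumZero sumZero_inv yp xp
    (no_fixed xp xp_trans) yp_periodic
  refine ⟨a, b, ha, hb, ?_⟩
  let π : PresentedGroup (rels a b) →* Equiv.Perm (Fin 9) :=
    PresentedGroup.toGroup (lift_rels hxa hyb)
  have h0 : π (PresentedGroup.of 0) = xp := PresentedGroup.toGroup.of _
  have h1 : π (PresentedGroup.of 1) = yp := PresentedGroup.toGroup.of _
  refine not_finite (F := ZMod 2) (π := π) (ω₀ := 0) (x := PresentedGroup.of 0)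
    (y := PresentedGroup.of 1) (a := a) (b := b) (Fintype.card_fin 9) ?_ ?_ ?_ ?_ ?_ ?_
    (coboundary a b)
  · intro H hx hy g
    refine PresentedGroup.generated_by _ H (fun j => ?_) g
    fin_cases j
    · exact hx
    · exact hy
  · intro ω ω'
    obtain ⟨i, hi⟩ := yp_trans ω ω'
    exact ⟨i, by rw [map_pow, h1, hi]⟩
  · rw [map_pow, h1, yp_pow]
  · simp only [map_pow, h1]
    exact yp_bij
  · intro m n hm hn
    rw [h0, h1]
    exact hda m hm n hn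
  · intro m n hm hn
    rw [h0, h1]
    exact hdb m hm n hn

end Pool.Agent.Lib.MP_954a1f_al
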